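import Pool.Agent.Q17.LCM.Main

/-!
# Minimum covers of LCM-p-groups for odd p

For every odd prime `p` there are infinitely many finite sets `𝓕` of LCM-p-groups none of whose
minimum covers is an LCM-group.  The `m`-th set is `{C_p^(p+m), X × C_p^m, C_(p^2)}` with `X` the
nonabelian subgroup of exponent `p` of the wreath product of two cyclic groups of order `p`
consisting of the elements whose base part has coordinate sum zero.
-/

namespace Pool.Agent.Results.MP_8c719a_al

open Q17.LCM

/-- For every odd prime `p` there are infinitely many finite sets of LCM-p-groups (here: a sequence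
of finite sets, no two of them equal when members are taken up to isomorphism) such that every
minimum cover fails to be an LCM-group; minimum covers exist. -/
theorem InfinitelyManySets.result (p : ℕ) (hp : p.Prime) (hodd : Odd p) :
    ∃ 𝓕 : ℕ → Set FiniteGrp.{0},
      (∀ m, (𝓕 m).Finite) ∧
      (∀ m, ∀ K ∈ 𝓕 m, IsPGroup p K ∧ IsLCMGroup K) ∧
      (∀ m n, m ≠ n → ¬ SameUpToIso (𝓕 m) (𝓕 n)) ∧
      (∀ m, ∃ G, IsMinimumCover (𝓕 m) G) ∧
      ∀ m G, IsMinimumCover (𝓕 m) G → ¬ IsLCMGroup G := by
  have : Fact p.Prime := ⟨hp⟩
  have h3 : 3 ≤ p := by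
    have h2 := hp.two_le
    have : p ≠ 2 := by rintro rfl; exact absurd hodd (by decide)
    omega
  exact ⟨fun m => F p m, F_finite, F_members, fun m n hmn => F_not_same h3 hmn, exists_min,
    fun m G hG => min_not_lcm h3 hG⟩

end Pool.Agent.Results.MP_8c719a_al
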